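import Pool.Agent.V5helper4.SE.Com

/-! Project SE: jobs L1 and L4. -/

set_option autoImplicit false

namespace Pool.Agent.V5helper4.SE

open Matrix hiding row
open Filter Pool.Agent.V5helper14.Hel Pool.Agent.V5helper14.Sep

lemma sign_pos_mul {c x : ℝ} (hc : 0 < c) : SignType.sign (c * x) = SignType.sign x := by
  rw [sign_mul, sign_pos hc, one_mul]

theorem t_L4 (h : S_ORI) : S_L4 := by
  obtain ⟨h1, h2, _, _⟩ := h
  intro k n p hp
  have hall : ∀ᶠ Γ : ℝ in atTop, ∀ f : Fin (k + 2) → Fin n, StrictMono f →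
      SignType.sign (orient (liftP Γ p) (fun i => (f i).castSucc)) =
        SignType.sign (orient p (fun i => f i.castSucc)) := by
    rw [eventually_all]
    intro f
    by_cases hf : StrictMono f
    · have hne : orient p (fun i => f i.castSucc) ≠ 0 := hp _ (hf.comp Fin.strictMono_castSucc)
      filter_upwards [h2 k n p f hf hne] with Γ hΓ _
      exact hΓ
    · exact Eventually.of_forall fun Γ hf' => absurd hf' hf
  filter_upwards [hall, eventually_gt_atTop 0] with Γ hΓ hpos
  intro f hf
  by_cases hl : f (Fin.last _) = Fin.last n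
  · obtain ⟨g, hg, rfl⟩ := end_last f hf hl
    obtain ⟨c, hc, e⟩ := h1 k n p Γ hpos g
    rw [e]
    exact mul_ne_zero hc.ne' (hp g hg)
  · obtain ⟨g, hg, rfl⟩ := end_not_last f hf hl
    have h3 := hΓ g hg
    have hne : orient p (fun i => g i.castSucc) ≠ 0 := hp _ (hg.comp Fin.strictMono_castSucc)
    intro h0
    rw [h0, sign_zero] at h3
    exact hne (sign_eq_zero_iff.1 h3.symm)

theorem t_L1 (h : S_ORI) : S_L1 := by
  obtain ⟨h1, h2, h3, h4⟩ := h
  intro k n a p B hp hC
  obtain ⟨L, r, X, hL, hLr, hX, hs⟩ := hC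
  have hall : ∀ᶠ Γ : ℝ in atTop, ∀ f : Fin (k + 2) → Fin n, StrictMono f → (∀ i, f i ∈ B) →
      SignType.sign (hdet (liftP Γ X) (Fin.snoc (α := fun _ => ℝ) (-r) 0) (fun i => (f i).castSucc)) =
        SignType.sign (orient (liftP Γ p) (fun i => (f i).castSucc)) := by
    rw [eventually_all]
    intro f
    by_cases hf : StrictMono f ∧ ∀ i, f i ∈ B
    · have hm : StrictMono (fun i : Fin (k + 1) => f i.castSucc) := hf.1.comp Fin.strictMono_castSucc
      have hne : orient p (fun i => f i.castSucc) ≠ 0 := hp _ hm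
      have hs' := hs (fun i => f i.castSucc) hm (fun i => hf.2 _)
      have hne2 : hdet X r (fun i => f i.castSucc) ≠ 0 := by
        intro h0
        rw [h0, sign_zero] at hs'
        exact hne (sign_eq_zero_iff.1 hs'.symm)
      filter_upwards [h2 k n p f hf.1 hne, h4 k n X r f hf.1 hne2] with Γ hΓ hΓ' _ _
      rw [hΓ, hΓ', hs']
    · exact Eventually.of_forall fun Γ hf' hf'' => absurd ⟨hf', hf''⟩ hf
  filter_upwards [hall, eventually_gt_atTop 0] with Γ hΓ hpos
  have h0 : (Fin.snoc (α := fun _ => ℝ) L (-L 0) : Fin (k + 3) → ℝ) 0 = L 0 := by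
    have := Fin.snoc_castSucc (α := fun _ => ℝ) (n := k + 2) (-L 0) L 0
    rwa [Fin.castSucc_zero] at this
  refine ⟨Fin.snoc (α := fun _ => ℝ) L (-L 0), Fin.snoc (α := fun _ => ℝ) (-r) 0, liftP Γ X, ?_, ?_, ?_, ?_⟩
  · intro hz
    apply hL
    funext j
    have := congrFun hz j.castSucc
    unfold Fin.tail at this ⊢
    rw [Fin.succ_castSucc, Fin.snoc_castSucc] at this
    exact this
  · unfold dotProduct
    rw [Fin.sum_univ_castSucc]
    simp only [Fin.snoc_castSucc, Fin.snoc_last, mul_zero, add_zero]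
    intro hz
    apply hLr
    unfold dotProduct
    simp only [Pi.neg_apply, mul_neg, Finset.sum_neg_distrib, neg_eq_zero] at hz
    exact hz
  · intro i
    refine Fin.lastCases ?_ (fun j => ?_) i
    · intro _
      unfold liftP liftA
      rw [Fin.snoc_last, Fin.snoc_last]
      refine ⟨rfl, ?_⟩
      rw [apex_dot, Fin.snoc_last, h0]
      ring
    · intro hj
      rw [mem_liftB_castSucc] at hj
      unfold liftP liftA
      rw [Fin.snoc_castSucc, Fin.snoc_castSucc]
      refine ⟨⟨X j, (hX j hj).1, rfl⟩, ?_⟩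
      rw [liftPt_dot _ _ (by positivity) _ (by rw [Fin.snoc_last, h0]; ring)]
      have e : (fun i : Fin (k + 2) => (Fin.snoc (α := fun _ => ℝ) L (-L 0) : Fin (k + 3) → ℝ) i.castSucc) = L := by
        funext i
        rw [Fin.snoc_castSucc]
      rw [e, (hX j hj).2, mul_zero]
  · intro f hf hB
    by_cases hl : f (Fin.last _) = Fin.last n
    · obtain ⟨g, hg, rfl⟩ := end_last f hf hl
      obtain ⟨c, hc, e⟩ := h1 k n p Γ hpos g
      obtain ⟨c', hc', e'⟩ := h3 k n X r Γ hpos g
      rw [e, e', sign_pos_mul hc, sign_pos_mul hc']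
      apply hs g hg
      intro i
      have := hB i.castSucc
      rw [Fin.snoc_castSucc, mem_liftB_castSucc] at this
      exact this
    · obtain ⟨g, hg, rfl⟩ := end_not_last f hf hl
      exact hΓ g hg (fun i => (mem_liftB_castSucc B _).1 (hB i))

end Pool.Agent.V5helper4.SE
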