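import Pool.Agent.V5helper4.SE.Com

/-! Project SE: job L2. -/

set_option autoImplicit false

namespace Pool.Agent.V5helper4.SE

open Matrix hiding row
open Filter Pool.Agent.V5helper14.Hel Pool.Agent.V5helper14.Sep

lemma snoc_upd {m : ℕ} (R : Fin m → Fin (m + 1) → ℝ) (u w : Fin (m + 1) → ℝ) :
    (Matrix.of (Fin.snoc (α := fun _ => Fin (m + 1) → ℝ) R u)).updateRow (Fin.last m) w =
      Matrix.of (Fin.snoc (α := fun _ => Fin (m + 1) → ℝ) R w) := by
  ext i j
  refine Fin.lastCases ?_ (fun i' => ?_) i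
  · rw [updateRow_self, Matrix.of_apply, Fin.snoc_last]
  · rw [updateRow_ne (Fin.castSucc_lt_last i').ne, Matrix.of_apply, Matrix.of_apply, Fin.snoc_castSucc,
      Fin.snoc_castSucc]

lemma det_snoc_add {m : ℕ} (R : Fin m → Fin (m + 1) → ℝ) (u v : Fin (m + 1) → ℝ) (t : ℝ) :
    Matrix.det (Matrix.of (Fin.snoc (α := fun _ => Fin (m + 1) → ℝ) R (u + t • v))) =
      Matrix.det (Matrix.of (Fin.snoc (α := fun _ => Fin (m + 1) → ℝ) R u)) +
      t * Matrix.det (Matrix.of (Fin.snoc (α := fun _ => Fin (m + 1) → ℝ) R v)) := by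
  rw [← snoc_upd R 0 (u + t • v), det_updateRow_add, det_updateRow_smul, snoc_upd, snoc_upd]

lemma sign_pos_mul' {c x : ℝ} (hc : 0 < c) : SignType.sign (c * x) = SignType.sign x := by
  rw [sign_mul, sign_pos hc, one_mul]

theorem t_L2 (h : S_ORI) : S_L2 := by
  obtain ⟨h1, _, h3, _⟩ := h
  intro k n a p Γ hΓ hn hC
  obtain ⟨L, r, X', hL, hLr, hX', hs⟩ := hC
  -- the apex
  have hap := hX' (Fin.last n) (Finset.mem_univ _)
  unfold liftA at hap
  rw [Fin.snoc_last] at hap
  obtain ⟨hap1, hap2⟩ := hap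
  rw [Set.mem_singleton_iff] at hap1
  rw [hap1, apex_dot] at hap2
  have hex : ∀ i : Fin n, ∃ Y ∈ a i, liftPt (Γ ^ (i : ℕ)) Y = X' i.castSucc := by
    intro i
    have := (hX' i.castSucc (Finset.mem_univ _)).1
    unfold liftA at this
    rw [Fin.snoc_castSucc] at this
    exact this
  choose X hXa hXe using hex
  have hXX : X' = liftP Γ X := by
    funext i
    refine Fin.lastCases ?_ (fun j => ?_) i
    · rw [hap1]
      unfold liftP
      rw [Fin.snoc_last]
    · unfold liftP
      rw [Fin.snoc_castSucc, hXe]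
  have hrow : ∀ i : Fin n, (fun i => L i.castSucc) ⬝ᵥ row (X i) = 0 := by
    intro i
    have h5 := (hX' i.castSucc (Finset.mem_univ _)).2
    rw [← hXe i, liftPt_dot _ _ (by positivity) _ hap2] at h5
    rcases mul_eq_zero.1 h5 with h6 | h6
    · exfalso
      have : (0 : ℝ) < (1 + Γ ^ (i : ℕ))⁻¹ := by positivity
      linarith
    · exact h6
  -- the new last row
  set rr : Fin (k + 2) → ℝ := fun i => -(r i.castSucc - if i = 0 then r (Fin.last _) else 0) with hrr
  have hdec : r = (Fin.snoc (α := fun _ => ℝ) (-rr) 0 : Fin (k + 3) → ℝ) + r (Fin.last _) • row (apex (k + 1)) := by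
    funext i
    refine Fin.lastCases ?_ (fun j => ?_) i
    · have : row (apex (k + 1)) (Fin.last (k + 2)) = 1 := by
        unfold row apex
        have e : Fin.last (k + 2) = (Fin.last (k + 1)).succ := rfl
        rw [e, Fin.cons_succ, Fin.snoc_last]
      rw [Pi.add_apply, Pi.smul_apply, this, Fin.snoc_last, smul_eq_mul]
      ring
    · rw [Pi.add_apply, Pi.smul_apply, Fin.snoc_castSucc, smul_eq_mul, Pi.neg_apply, hrr]
      refine Fin.cases ?_ (fun l => ?_) j
      · have : row (apex (k + 1)) (Fin.castSucc 0) = 1 := by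
          unfold row
          rw [Fin.castSucc_zero, Fin.cons_zero]
        rw [this]
        show r (Fin.castSucc 0) = -(-(r (Fin.castSucc 0) - if (0 : Fin (k + 2)) = 0 then r (Fin.last _) else 0)) +
          r (Fin.last _) * 1
        rw [if_pos rfl]
        ring
      · have : row (apex (k + 1)) (Fin.castSucc l.succ) = 0 := by
          unfold row apex
          rw [← Fin.succ_castSucc, Fin.cons_succ, Fin.snoc_castSucc]
          rfl
        rw [this]
        simp [Fin.succ_ne_zero]
  have hLrr : (fun i => L i.castSucc) ⬝ᵥ rr = - (L ⬝ᵥ r) := by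
    have e1 : L ⬝ᵥ r = L ⬝ᵥ (Fin.snoc (α := fun _ => ℝ) (-rr) 0 : Fin (k + 3) → ℝ) +
        r (Fin.last _) * (L ⬝ᵥ row (apex (k + 1))) := by
      conv_lhs => rw [hdec]
      rw [dotProduct_add, dotProduct_smul, smul_eq_mul]
    have e2 : L ⬝ᵥ (Fin.snoc (α := fun _ => ℝ) (-rr) 0 : Fin (k + 3) → ℝ) =
        -∑ i : Fin (k + 2), L i.castSucc * rr i := by
      unfold dotProduct
      rw [Fin.sum_univ_castSucc]
      simp only [Fin.snoc_castSucc, Fin.snoc_last, mul_zero, add_zero, Pi.neg_apply, mul_neg,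
        Finset.sum_neg_distrib]
    rw [e1, apex_dot, hap2, e2, mul_zero, add_zero, neg_neg]
    rfl
  refine ⟨fun i => L i.castSucc, rr, X, ?_, ?_, ?_, ?_⟩
  · intro hz
    apply hLr
    have hz' : ∀ j : Fin (k + 1), L j.succ.castSucc = 0 := fun j => congrFun hz j
    have h6 := hrow ⟨0, hn⟩
    rw [row_dot] at h6
    simp only [hz', zero_mul, Finset.sum_const_zero, add_zero, Fin.castSucc_zero] at h6
    have h7 : L = 0 := by
      funext i
      refine Fin.lastCases ?_ (fun j => ?_) i
      · rw [Pi.zero_apply]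
        linarith
      · refine Fin.cases ?_ (fun l => ?_) j
        · rw [Fin.castSucc_zero, h6]
          rfl
        · rw [hz' l]
          rfl
    rw [h7, zero_dotProduct]
  · rw [hLrr]
    exact neg_ne_zero.2 hLr
  · intro i _
    exact ⟨hXa i, hrow i⟩
  · intro f hf _
    have h5 := hs _ (snoc_mono f hf) (fun i => Finset.mem_univ _)
    obtain ⟨c, hc, e⟩ := h1 k n p Γ hΓ f
    obtain ⟨c', hc', e'⟩ := h3 k n X rr Γ hΓ f
    rw [e, sign_pos_mul' hc] at h5
    rw [← h5]
    have h6 : hdet X' r (Fin.snoc (α := fun _ => Fin (n + 1)) (fun i => (f i).castSucc) (Fin.last n)) =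
        c' * hdet X rr f := by
      rw [← e', hXX]
      unfold hdet
      conv_lhs => rw [hdec]
      rw [det_snoc_add]
      have hz : Matrix.det (Matrix.of (Fin.snoc (α := fun _ => Fin (k + 3) → ℝ)
          (fun i => row (liftP Γ X ((Fin.snoc (α := fun _ => Fin (n + 1)) (fun i => (f i).castSucc) (Fin.last n) :
            Fin (k + 2) → Fin (n + 1)) i))) (row (apex (k + 1))))) = 0 := by
        apply det_zero_of_row_eq (i := Fin.last (k + 2)) (j := (Fin.last (k + 1)).castSucc)
          (Fin.castSucc_lt_last _).ne'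
        funext l
        rw [Matrix.of_apply, Matrix.of_apply, Fin.snoc_last, Fin.snoc_castSucc, Fin.snoc_last]
        unfold liftP
        rw [Fin.snoc_last]
      rw [hz, mul_zero, add_zero]
    rw [h6, sign_pos_mul' hc']

end Pool.Agent.V5helper4.SE
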