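import Pool.Agent.V5helper14.Sep.Stm

/-! Project SE: common lemmas for the jobs L1, L2, L4. -/

set_option autoImplicit false

namespace Pool.Agent.V5helper4.SE

open Matrix hiding row
open Filter Pool.Agent.V5helper14.Hel Pool.Agent.V5helper14.Sep

lemma row_dot {m : ℕ} (L : Fin (m + 1) → ℝ) (X : Fin m → ℝ) :
    L ⬝ᵥ row X = L 0 + ∑ i, L i.succ * X i := by
  unfold row dotProduct
  rw [Fin.sum_univ_succ]
  simp

lemma liftPt_dot {m : ℕ} (L : Fin (m + 2) → ℝ) (g : ℝ) (hg : 1 + g ≠ 0) (X : Fin m → ℝ)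
    (hL : L 0 + L (Fin.last _) = 0) :
    L ⬝ᵥ row (liftPt g X) = (1 + g)⁻¹ * ((fun i => L i.castSucc) ⬝ᵥ row X) := by
  rw [row_dot, row_dot, Fin.sum_univ_castSucc]
  unfold liftPt
  simp only [Fin.snoc_castSucc, Fin.snoc_last, Fin.succ_castSucc, Fin.succ_last, Fin.castSucc_zero]
  have h1 : L (Fin.last (m + 1)) = - L 0 := by linarith
  have e : Fin.last m.succ = Fin.last (m + 1) := rfl
  rw [e, h1]
  have h2 : ∑ x : Fin m, L x.succ.castSucc * ((1 + g)⁻¹ * X x) = (1 + g)⁻¹ * ∑ x : Fin m, L x.succ.castSucc * X x := by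
    rw [Finset.mul_sum]
    exact Finset.sum_congr rfl fun i _ => by ring
  rw [h2]
  field_simp
  ring

lemma apex_dot {m : ℕ} (L : Fin (m + 2) → ℝ) : L ⬝ᵥ row (apex m) = L 0 + L (Fin.last _) := by
  rw [row_dot, Fin.sum_univ_castSucc]
  unfold apex
  simp [Fin.succ_last]

/-- a strictly monotone tuple which ends with the last label -/
lemma end_last {k n : ℕ} (f : Fin (k + 1) → Fin (n + 1)) (hf : StrictMono f) (h : f (Fin.last k) = Fin.last n) :
    ∃ g : Fin k → Fin n, StrictMono g ∧
      f = Fin.snoc (α := fun _ => Fin (n + 1)) (fun i => (g i).castSucc) (Fin.last n) := by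
  have hlt : ∀ i : Fin k, f i.castSucc ≠ Fin.last n := by
    intro i hi
    have := hf (Fin.castSucc_lt_last i)
    rw [hi, h] at this
    exact lt_irrefl _ this
  refine ⟨fun i => (f i.castSucc).castPred (hlt i), ?_, ?_⟩
  · intro i j hij
    rw [Fin.castPred_lt_castPred_iff]
    exact hf (Fin.castSucc_lt_castSucc_iff.2 hij)
  · funext i
    refine Fin.lastCases ?_ (fun j => ?_) i
    · rw [Fin.snoc_last, h]
    · rw [Fin.snoc_castSucc, Fin.castSucc_castPred]

/-- a strictly monotone tuple which does not end with the last label -/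
lemma end_not_last {k n : ℕ} (f : Fin (k + 1) → Fin (n + 1)) (hf : StrictMono f) (h : f (Fin.last k) ≠ Fin.last n) :
    ∃ g : Fin (k + 1) → Fin n, StrictMono g ∧ f = fun i => (g i).castSucc := by
  have hlt : ∀ i : Fin (k + 1), f i ≠ Fin.last n := by
    intro i hi
    have h1 := hf.monotone (Fin.le_last i)
    rw [hi] at h1
    exact h (le_antisymm (Fin.le_last _) h1)
  refine ⟨fun i => (f i).castPred (hlt i), ?_, ?_⟩
  · intro i j hij
    rw [Fin.castPred_lt_castPred_iff]
    exact hf hij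
  · funext i
    rw [Fin.castSucc_castPred]

lemma snoc_mono {k n : ℕ} (g : Fin k → Fin n) (hg : StrictMono g) :
    StrictMono (Fin.snoc (α := fun _ => Fin (n + 1)) (fun i => (g i).castSucc) (Fin.last n)) := by
  intro i j hij
  revert hij
  refine Fin.lastCases ?_ (fun j' => ?_) j
  · refine Fin.lastCases ?_ (fun i' => ?_) i
    · intro h
      exact absurd h (lt_irrefl _)
    · intro _
      rw [Fin.snoc_last, Fin.snoc_castSucc]
      exact Fin.castSucc_lt_last _
  · refine Fin.lastCases ?_ (fun i' => ?_) i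
    · intro h
      exact absurd h (not_lt.2 (Fin.le_last _))
    · intro h
      rw [Fin.snoc_castSucc, Fin.snoc_castSucc]
      exact Fin.castSucc_lt_castSucc_iff.2 (hg (Fin.castSucc_lt_castSucc_iff.1 h))

lemma mem_liftB_castSucc {n : ℕ} (B : Finset (Fin n)) (i : Fin n) : i.castSucc ∈ liftB B ↔ i ∈ B := by
  unfold liftB
  rw [Finset.mem_insert, Finset.mem_map]
  constructor
  · rintro (h | ⟨j, hj, h⟩)
    · exact absurd h (Fin.castSucc_lt_last i).ne
    · have : j = i := Fin.castSucc_injective _ h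
      rwa [← this]
  · intro h
    exact Or.inr ⟨i, h, rfl⟩

end Pool.Agent.V5helper4.SE
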